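import Mathlib
import Pool.Agent.Helper923.Mono
import Pool.Agent.Helper923.Upper
import Pool.Agent.Helper923.Refine

set_option autoImplicit false

namespace Pool.Agent.Results.MP_574c26_nt.Threshold

open Finset

/-- The restricted sumset: all sums of two distinct elements of `A`. -/
def restrictedSum (A : Finset ℕ) : Finset ℕ := A.offDiag.image (fun p => p.1 + p.2)

/-- `P k N`: for every partition of `{1, …, N}` into `k` nonempty pairwise disjoint parts the
union of the restricted sumsets of the parts has at least `N / 10` elements. -/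
def P (k N : ℕ) : Prop :=
  ∀ A : Fin k → Finset ℕ, (∀ i, (A i).Nonempty) → (∀ i j, i ≠ j → Disjoint (A i) (A j)) →
    univ.biUnion A = Icc 1 N →
    (N : ℝ) / 10 ≤ ((univ.biUnion fun i => restrictedSum (A i)).card : ℝ)

lemma mem_restrictedSum {A : Finset ℕ} {s : ℕ} :
    s ∈ restrictedSum A ↔ ∃ a ∈ A, ∃ b ∈ A, a ≠ b ∧ a + b = s := by
  simp only [restrictedSum, mem_image, mem_offDiag, Prod.exists]
  constructor
  · rintro ⟨a, b, ⟨ha, hb, hab⟩, rfl⟩
    exact ⟨a, ha, b, hb, hab, rfl⟩
  · rintro ⟨a, ha, b, hb, hab, rfl⟩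
    exact ⟨a, b, ⟨ha, hb, hab⟩, rfl⟩

/-- a partition yields a colouring -/
lemma exists_colouring {k N : ℕ} (hk : 1 ≤ k) (A : Fin k → Finset ℕ)
    (hd : ∀ i j, i ≠ j → Disjoint (A i) (A j)) (hU : univ.biUnion A = Icc 1 N) :
    ∃ c : ℕ → Fin k, ∀ a i, 1 ≤ a → a ≤ N → (c a = i ↔ a ∈ A i) := by
  classical
  refine ⟨fun a => if h : ∃ i, a ∈ A i then h.choose else ⟨0, by omega⟩, ?_⟩
  intro a i ha1 ha2
  have hmem : a ∈ univ.biUnion A := by rw [hU, mem_Icc]; exact ⟨ha1, ha2⟩
  rw [mem_biUnion] at hmem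
  have h : ∃ i, a ∈ A i := by
    obtain ⟨j, _, hj⟩ := hmem
    exact ⟨j, hj⟩
  simp only [dif_pos h]
  constructor
  · intro he
    rw [← he]
    exact h.choose_spec
  · intro hi
    by_contra hne
    exact (disjoint_left.mp (hd _ _ hne)) h.choose_spec hi

/-- a colouring onto `Fin k` yields a partition; if its monochromatic sums lie in a set with
fewer than `N/10` elements then `P k N` fails -/
lemma not_P_of_colouring {k N : ℕ} (c : ℕ → Fin k) (T : Finset ℕ)
    (hs : ∀ i, ∃ a, 1 ≤ a ∧ a ≤ N ∧ c a = i)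
    (hT : (T.card : ℝ) < N / 10)
    (hc : ∀ a b, 1 ≤ a → a ≤ N → 1 ≤ b → b ≤ N → a ≠ b → c a = c b → a + b ∈ T) : ¬ P k N := by
  classical
  intro hP
  have h := hP (fun i => (Icc 1 N).filter (fun a => c a = i)) ?_ ?_ ?_
  · have hle : (univ.biUnion fun i => restrictedSum ((Icc 1 N).filter (fun a => c a = i))).card
        ≤ T.card := by
      apply card_le_card
      intro s hs
      rw [mem_biUnion] at hs
      obtain ⟨i, _, hi⟩ := hs
      rw [mem_restrictedSum] at hi
      obtain ⟨a, ha, b, hb, hab, rfl⟩ := hi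
      simp only [mem_filter, mem_Icc] at ha hb
      exact hc a b ha.1.1 ha.1.2 hb.1.1 hb.1.2 hab (by rw [ha.2, hb.2])
    have : ((univ.biUnion fun i => restrictedSum ((Icc 1 N).filter (fun a => c a = i))).card : ℝ)
        ≤ T.card := by exact_mod_cast hle
    linarith
  · intro i
    obtain ⟨a, h1, h2, h3⟩ := hs i
    exact ⟨a, by simp [h1, h2, h3]⟩
  · intro i j hij
    rw [disjoint_left]
    intro a ha hb
    simp only [mem_filter] at ha hb
    exact hij (by rw [← ha.2, ← hb.2])
  · ext a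
    simp only [mem_biUnion, mem_univ, true_and, mem_filter]
    constructor
    · rintro ⟨i, h, _⟩; exact h
    · intro h; exact ⟨c a, h, rfl⟩

/-- refining a bad partition: `P` is monotone in `k` -/
lemma P_mono {k k' N : ℕ} (h1 : 1 ≤ k') (h2 : k' ≤ k) (h3 : k ≤ N) (h : P k N) : P k' N := by
  classical
  by_contra hn
  unfold P at hn
  push Not at hn
  obtain ⟨A, hne, hd, hU, hlt⟩ := hn
  obtain ⟨c, hc⟩ := exists_colouring h1 A hd hU
  obtain ⟨c', hs', hc'⟩ := Pool.Agent.Helper923.Refine.exists_surj (ι := Fin k') N k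
    (by rw [Fintype.card_fin]; exact h2) (by omega) h3 c
  refine not_P_of_colouring c' (univ.biUnion fun i => restrictedSum (A i)) hs' hlt ?_ h
  intro a b ha1 ha2 hb1 hb2 hab he
  have he' := hc' a b ha1 ha2 hb1 hb2 he
  rw [mem_biUnion]
  refine ⟨c b, mem_univ _, ?_⟩
  rw [mem_restrictedSum]
  exact ⟨a, (hc a _ ha1 ha2).1 he', b, (hc b _ hb1 hb2).1 rfl, hab, rfl⟩

/-- from the colouring bound to `P` -/
lemma P_of_sums {k N : ℕ} (hk : 1 ≤ k)
    (h : ∀ c : ℕ → Fin k, (N : ℝ) / 10 ≤ ((Pool.Agent.Helper923.Mono.sums N c).ncard : ℝ)) :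
    P k N := by
  classical
  intro A _ hd hU
  obtain ⟨c, hc⟩ := exists_colouring hk A hd hU
  refine (h c).trans ?_
  have : (Pool.Agent.Helper923.Mono.sums N c)
      ⊆ ((univ.biUnion fun i => restrictedSum (A i) : Finset ℕ) : Set ℕ) := by
    rintro s ⟨a, b, ha1, ha2, hb1, hb2, hab, he, rfl⟩
    rw [mem_coe, mem_biUnion]
    refine ⟨c b, mem_univ _, ?_⟩
    rw [mem_restrictedSum]
    exact ⟨a, (hc a _ ha1 ha2).1 he, b, (hc b _ hb1 hb2).1 rfl, hab, rfl⟩
  have h2 := Set.ncard_le_ncard this (Finset.finite_toSet _)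
  rw [Set.ncard_coe_finset] at h2
  exact_mod_cast h2

open Filter Pool.Agent.Helper923.Mono

/-- lower range: `P k N` holds for `k ≤ exp (c0 * s N)` -/
lemma lower : ∀ᶠ N : ℕ in atTop, ∀ k : ℕ, 1 ≤ k → (k : ℝ) ≤ Real.exp (c0 * s N) → P k N := by
  have hc := c0_pos
  have hlim : Tendsto (fun N : ℕ => Real.exp (4 * c0) * Real.exp (-(c0 * s N)))
      atTop (nhds 0) := by
    have h1 : Tendsto (fun N : ℕ => c0 * s N) atTop atTop :=
      Tendsto.const_mul_atTop hc s_tendsto
    have h2 := (Real.tendsto_exp_neg_atTop_nhds_zero.comp h1).const_mul (Real.exp (4 * c0))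
    simpa [Function.comp] using h2
  have hev : ∀ᶠ N : ℕ in atTop, Real.exp (4 * c0) * Real.exp (-(c0 * s N)) < 0.4 :=
    hlim.eventually_lt_const (by norm_num)
  filter_upwards [hev, loglog_tendsto.eventually_ge_atTop 1, s_tendsto.eventually_ge_atTop 2,
    eventually_ge_atTop 1] with N h2 h3 h4 h5 k hk hkle
  apply P_of_sums hk
  intro c
  have h6 := mono_count N _ (roth_s N h3 h4) c
  refine le_trans ?_ h6
  have hN1 : (1 : ℝ) ≤ N := by exact_mod_cast h5
  have h8 : (k : ℝ) * (Real.exp (4 * c0) * Real.exp (-2 * c0 * s N) * (N + 1))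
      ≤ 0.4 * (N + 1) := by
    calc (k : ℝ) * (Real.exp (4 * c0) * Real.exp (-2 * c0 * s N) * (N + 1))
        ≤ Real.exp (c0 * s N) * (Real.exp (4 * c0) * Real.exp (-2 * c0 * s N) * (N + 1)) := by
          gcongr
      _ = (Real.exp (4 * c0) * Real.exp (-(c0 * s N))) * (N + 1) := by
          have e : Real.exp (-(c0 * s N)) = Real.exp (c0 * s N) * Real.exp (-2 * c0 * s N) := by
            rw [← Real.exp_add]; congr 1; ring
          rw [e]; ring
      _ ≤ _ := by gcongr
  linarith

/-- upper range: `P k N` fails for `N ^ (10 / log log N) ≤ k` -/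
lemma upper : ∀ᶠ N : ℕ in atTop, ∀ k : ℕ, 1 ≤ k → k ≤ N →
    (N : ℝ) ^ (10 / Real.log (Real.log N)) ≤ k → ¬ P k N := by
  have hw : Tendsto (fun N : ℕ => (Real.log (N : ℝ)) ^ ((1 : ℝ) / 8)) atTop atTop :=
    (tendsto_rpow_atTop (by norm_num)).comp
      (Real.tendsto_log_atTop.comp tendsto_natCast_atTop_atTop)
  have h1 : ∀ᶠ w : ℝ in atTop, 1000 * (Real.log w) ^ 3 ≤ w := by
    have h2 := (isLittleO_log_rpow_atTop (show (0 : ℝ) < 1 / 3 by norm_num)).bound
      (show (0 : ℝ) < 1 / 10 by norm_num)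
    filter_upwards [h2, eventually_ge_atTop 1] with w h2 h3
    have h4 : 0 ≤ Real.log w := Real.log_nonneg h3
    have h5 : 0 ≤ w ^ ((1 : ℝ) / 3) := by positivity
    rw [Real.norm_eq_abs, Real.norm_eq_abs, abs_of_nonneg h4, abs_of_nonneg h5] at h2
    have h6 : (Real.log w) ^ 3 ≤ (1 / 10 * w ^ ((1 : ℝ) / 3)) ^ 3 := by gcongr
    have h7 : (w ^ ((1 : ℝ) / 3)) ^ 3 = w := by
      rw [← Real.rpow_natCast, ← Real.rpow_mul (by linarith)]
      norm_num
    rw [mul_pow, h7] at h6
    linarith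
  have h2 : ∀ᶠ w : ℝ in atTop, 20 ≤ Real.log w :=
    Real.tendsto_log_atTop.eventually_ge_atTop 20
  filter_upwards [hw.eventually h1, hw.eventually h2, eventually_ge_atTop 3,
    hw.eventually_gt_atTop 0] with N hN1 hN2 hN3 hN4 k hk1 hkN hk
  set w : ℝ := (Real.log (N : ℝ)) ^ ((1 : ℝ) / 8) with hwdef
  have hlogpos : 0 < Real.log (N : ℝ) := by
    apply Real.log_pos
    have : 1 < N := by omega
    exact_mod_cast this
  have hNpos : (0 : ℝ) < N := by
    have : 0 < N := by omega
    exact_mod_cast this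
  have hw8 : Real.log (N : ℝ) = w ^ 8 := by
    rw [hwdef, ← Real.rpow_natCast, ← Real.rpow_mul hlogpos.le]
    norm_num
  have hloglog : Real.log (Real.log (N : ℝ)) = 8 * Real.log w := by
    rw [hw8, Real.log_pow]; norm_num
  obtain ⟨ι, hι, c, T, hcard, hT, hc⟩ := Pool.Agent.Helper923.Upper.main_bound
    (N := N) (w := w) (v := Real.log w) (by omega) hw8 rfl hN4 hN2 hN1
  have hexp : Real.exp (10 * w ^ 8 / (8 * Real.log w))
      = (N : ℝ) ^ (10 / Real.log (Real.log N)) := by
    rw [Real.rpow_def_of_pos hNpos, hloglog, ← hw8]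
    congr 1
    ring
  rw [hexp] at hcard
  have hcardk : Fintype.card ι ≤ k := by exact_mod_cast hcard.trans hk
  obtain ⟨c', hs', hc'⟩ := Pool.Agent.Helper923.Refine.exists_surj N k hcardk (by omega) hkN c
  apply not_P_of_colouring c' T hs' hT
  intro a b ha1 ha2 hb1 hb2 hab he
  have he' := hc' a b ha1 ha2 hb1 hb2 he
  rcases lt_or_gt_of_ne hab with h | h
  · have := hc b hb2 a h he'.symm
    rwa [Nat.add_comm] at this
  · exact hc a ha2 b h he'

/-- `N ^ (10 / log log N) + 1 ≤ N ^ (11 / log log N)` for large `N` -/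
lemma slack : ∀ᶠ N : ℕ in atTop, (N : ℝ) ^ (10 / Real.log (Real.log N)) + 1
    ≤ (N : ℝ) ^ (11 / Real.log (Real.log N)) := by
  filter_upwards [loglog_tendsto.eventually_ge_atTop 1, eventually_ge_atTop 3] with N h1 h2
  have hNpos : (0 : ℝ) < N := by
    have : 0 < N := by omega
    exact_mod_cast this
  have hlogpos : 0 < Real.log (N : ℝ) := by
    apply Real.log_pos
    have : 1 < N := by omega
    exact_mod_cast this
  have hll : 0 < Real.log (Real.log (N : ℝ)) := by linarith
  have h3 : Real.log (Real.log (N : ℝ)) ≤ Real.log N := by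
    have := Real.log_le_sub_one_of_pos hlogpos
    linarith
  have h4 : (1 : ℝ) ≤ Real.log N / Real.log (Real.log N) := by
    rw [le_div_iff₀ hll]; linarith
  have h5 : (N : ℝ) ^ (10 / Real.log (Real.log N))
      = Real.exp (10 * (Real.log N / Real.log (Real.log N))) := by
    rw [Real.rpow_def_of_pos hNpos]; congr 1; ring
  have h6 : (N : ℝ) ^ (11 / Real.log (Real.log N))
      = Real.exp (10 * (Real.log N / Real.log (Real.log N)))
        * Real.exp (Real.log N / Real.log (Real.log N)) := by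
    rw [Real.rpow_def_of_pos hNpos, ← Real.exp_add]; congr 1; ring
  rw [h5, h6]
  have h7 : 2 ≤ Real.exp (Real.log N / Real.log (Real.log N)) := by
    have := Real.add_one_le_exp (Real.log N / Real.log (Real.log N))
    linarith
  have h8 : 1 ≤ Real.exp (10 * (Real.log N / Real.log (Real.log N))) := by
    apply Real.one_le_exp; positivity
  nlinarith

/-- `N ^ (10 / log log N) ≤ N - 1` for large `N` -/
lemma room : ∀ᶠ N : ℕ in atTop, (N : ℝ) ^ (10 / Real.log (Real.log N)) + 1 ≤ (N : ℝ) := by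
  filter_upwards [loglog_tendsto.eventually_ge_atTop 20, eventually_ge_atTop 9] with N h1 h2
  have hN9 : (9 : ℝ) ≤ N := by exact_mod_cast h2
  have h3 : (N : ℝ) ^ (10 / Real.log (Real.log N)) ≤ (N : ℝ) ^ ((1 : ℝ) / 2) := by
    apply Real.rpow_le_rpow_of_exponent_le (by linarith)
    rw [div_le_div_iff₀ (by linarith) (by norm_num)]
    linarith
  have h4 : (N : ℝ) ^ ((1 : ℝ) / 2) = √N := by
    rw [Real.sqrt_eq_rpow]
  rw [h4] at h3
  have h5 : (3 : ℝ) ≤ √N := by
    apply Real.le_sqrt_of_sq_le; linarith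
  have h6 : √(N : ℝ) * √N = N := Real.mul_self_sqrt (by linarith)
  nlinarith

/-- There is a threshold function `K` such that `P k N` holds exactly for the `k < K N` (among
`1 ≤ k ≤ N`), and `exp (c √(log log N)) ≤ K N ≤ N ^ (11 / log log N)` for all large `N`. -/
theorem result : ∃ K : ℕ → ℕ,
    (∀ N k : ℕ, 1 ≤ k → k ≤ N → (P k N ↔ k < K N)) ∧
    ∃ c : ℝ, 0 < c ∧ ∀ᶠ N : ℕ in Filter.atTop,
      Real.exp (c * √(Real.log (Real.log (N : ℝ)))) ≤ (K N : ℝ) ∧
      (K N : ℝ) ≤ (N : ℝ) ^ (11 / Real.log (Real.log (N : ℝ))) := by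
  classical
  have hex : ∀ N : ℕ, ∃ k, N < k ∨ (1 ≤ k ∧ ¬ P k N) := fun N => ⟨N + 1, Or.inl (by omega)⟩
  have hiff : ∀ N k : ℕ, 1 ≤ k → k ≤ N → (P k N ↔ k < Nat.find (hex N)) := by
    intro N k hk hkN
    constructor
    · intro hP
      by_contra hge
      push Not at hge
      rcases Nat.find_spec (hex N) with h | h
      · omega
      · exact h.2 (P_mono h.1 hge hkN hP)
    · intro hlt
      have := Nat.find_min (hex N) hlt
      push Not at this
      exact this.2 hk
  refine ⟨fun N => Nat.find (hex N), hiff, c0 * √(1 / 6), ?_, ?_⟩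
  · have := c0_pos
    positivity
  · filter_upwards [lower, upper, slack, room, loglog_tendsto.eventually_ge_atTop 1,
      eventually_ge_atTop 3] with N hlow hup hsl hroom hll hN3
    have hNpos : (0 : ℝ) < N := by
      have : 0 < N := by omega
      exact_mod_cast this
    have hs : c0 * √(1 / 6) * √(Real.log (Real.log (N : ℝ))) = c0 * s N := by
      unfold s
      rw [mul_assoc, ← Real.sqrt_mul (by norm_num)]
      congr 2
      ring
    rw [hs]
    constructor
    · -- lower bound for the threshold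
      by_contra hlt
      push Not at hlt
      have hsp := Nat.find_spec (hex N)
      have hle : ((Nat.find (hex N) : ℕ) : ℝ) ≤ Real.exp (c0 * s N) := hlt.le
      rcases hsp with h | h
      · -- `N < K`, but `exp (c0 s) ≤ N`
        have h1 : (N : ℝ) < Real.exp (c0 * s N) := by
          have : (N : ℝ) < (Nat.find (hex N) : ℕ) := by exact_mod_cast h
          linarith
        have h2 : Real.exp (c0 * s N) ≤ N := by
          rw [← Real.le_log_iff_exp_le hNpos]
          have hsq : 6 * s N ^ 2 = Real.log (Real.log N) := by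
            unfold s
            rw [Real.sq_sqrt (by linarith)]
            ring
          have hlog : 0 < Real.log N := by
            apply Real.log_pos
            have : 1 < N := by omega
            exact_mod_cast this
          have h3 : Real.log (Real.log N) ≤ Real.log N - 1 :=
            Real.log_le_sub_one_of_pos hlog
          have hs0 : 0 ≤ s N := by unfold s; positivity
          have hc1 := c0_le
          have hc := c0_pos
          nlinarith [sq_nonneg (s N - 1)]
        linarith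
      · exact h.2 (hlow _ h.1 hle)
    · -- upper bound for the threshold
      set x : ℝ := (N : ℝ) ^ (10 / Real.log (Real.log (N : ℝ))) with hx
      have hxpos : 0 < x := by rw [hx]; positivity
      have hc1 : x ≤ (⌈x⌉₊ : ℝ) := Nat.le_ceil x
      have hc2 : (⌈x⌉₊ : ℝ) < x + 1 := Nat.ceil_lt_add_one hxpos.le
      have hc3 : 1 ≤ ⌈x⌉₊ := Nat.one_le_ceil_iff.mpr hxpos
      have hc4 : ⌈x⌉₊ ≤ N := by
        have : (⌈x⌉₊ : ℝ) ≤ N := by linarith
        exact_mod_cast this
      have hn := hup ⌈x⌉₊ hc3 hc4 hc1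
      have hle : Nat.find (hex N) ≤ ⌈x⌉₊ := Nat.find_min' (hex N) (Or.inr ⟨hc3, hn⟩)
      have hle' : ((Nat.find (hex N) : ℕ) : ℝ) ≤ (⌈x⌉₊ : ℝ) := by exact_mod_cast hle
      linarith

end Pool.Agent.Results.MP_574c26_nt.Threshold
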